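import Mathlib

/-!
# Definitions (MP_83608f_co, module EM.Def)
-/

set_option autoImplicit false

namespace Pool.Agent.Lib.MP_83608f_co.EM

/-- `Wk G l x y`: there is a walk with exactly `l` arcs from `x` to `y` in `G` -/
def Wk {V : Type} (G : Digraph V) : ℕ → V → V → Prop
  | 0, x, y => x = y
  | l + 1, x, y => ∃ z, G.Adj x z ∧ Wk G l z y

/-- the distance from `x` to `y` is exactly `i` -/
def DistEq {V : Type} (G : Digraph V) (i : ℕ) (x y : V) : Prop :=
  Wk G i x y ∧ ∀ j < i, ¬ Wk G j x y

/-- `G` has no directed cycle with fewer than `g` arcs (a directed cycle with `m` arcs is an `m`-periodic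
sequence of vertices, injective on a period, in which each vertex dominates the next one) -/
def GirthGe {V : Type} (G : Digraph V) (g : ℕ) : Prop :=
  ∀ m : ℕ, 1 ≤ m → m < g → ¬ ∃ c : ℕ → V, (∀ i, c (i + m) = c i) ∧
    (∀ i, G.Adj (c i) (c (i + 1))) ∧ Set.InjOn c (Set.Iio m)

/-- The relation `R_i` between arcs `a = (x, y)` and `b = (z, u)`: there is a walk with `i - 1` arcs
from `y` to `z`, and no walk from `x` to `u` with at least one and at most `i` arcs. (So `a` and `b` are
the first and the last arc of a walk with `i + 1` arcs which has no shortcut, or is closed.) -/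
def Opp {V : Type} (G : Digraph V) (i : ℕ) (a b : V × V) : Prop :=
  G.Adj a.1 a.2 ∧ G.Adj b.1 b.2 ∧ Wk G (i - 1) a.2 b.1 ∧ ∀ j, 1 ≤ j → j ≤ i → ¬ Wk G j a.1 b.2

/-- An exchange family for the distance `i`: a relation `F` between arcs such that for
`(x, y) F (z, u)` the distances from `x` to `z` and from `y` to `u` are exactly `i`, and which is closed
under the two exchanges: `(x, y) F (z, u')` and `(x, y') F (z, u)` imply `(x, y) F (z, u)`;
`(x, y) F (z', u)` and `(x', y) F (z, u)` imply `(x, y) F (z, u)`. -/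
structure Exch {V : Type} (G : Digraph V) (i : ℕ) (F : V × V → V × V → Prop) : Prop where
  arc₁ : ∀ a b, F a b → G.Adj a.1 a.2
  arc₂ : ∀ a b, F a b → G.Adj b.1 b.2
  dist₁ : ∀ a b, F a b → DistEq G i a.1 b.1
  dist₂ : ∀ a b, F a b → DistEq G i a.2 b.2
  ex₁ : ∀ x y z u y' u', F (x, y) (z, u') → F (x, y') (z, u) → F (x, y) (z, u)
  ex₂ : ∀ x y z u x' z', F (x, y) (z', u) → F (x', y) (z, u) → F (x, y) (z, u)

/-- `w` is a fractional matching in the relation `F`: nonnegative, supported on the pairs `(a, b)` with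
`F a b`, and with row sums and column sums at most `1` -/
structure FracMatching {V : Type} [Fintype V] (F : V × V → V × V → Prop) (w : V × V → V × V → ℝ) :
    Prop where
  nonneg : ∀ a b, 0 ≤ w a b
  supp : ∀ a b, w a b ≠ 0 → F a b
  row : ∀ a, ∑ b, w a b ≤ 1
  col : ∀ b, ∑ a, w a b ≤ 1

/-- the matching condition: for each `2 ≤ i < g` there is an exchange family for the distance `i` with a
perfect fractional matching -/
def MatchCond {V : Type} [Fintype V] (G : Digraph V) (g : ℕ) : Prop :=
  ∀ i : ℕ, 2 ≤ i → i < g → ∃ (F : V × V → V × V → Prop) (w : V × V → V × V → ℝ),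
    Exch G i F ∧ FracMatching F w ∧ ∀ a : V × V, G.Adj a.1 a.2 → ∑ b, w a b = 1

/-- `load c ω g x y`: the total weight with which the closed walks `c j` with `g` arcs and weights `ω j`
use the arc `(x, y)` -/
noncomputable def load {V ι : Type} [Fintype ι] (c : ι → ℕ → V) (ω : ι → ℝ) (g : ℕ) (x y : V) : ℝ :=
  ∑ j, ω j * (Nat.card {t : ℕ // t < g ∧ c j t = x ∧ c j (t + 1) = y} : ℝ)

/-- a finite family of closed walks `c j` with `g` arcs in `G`, with weights `ω j ≥ 0` -/
def ClosedWalks {V ι : Type} (G : Digraph V) (g : ℕ) (c : ι → ℕ → V) (ω : ι → ℝ) : Prop :=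
  (∀ j, 0 ≤ ω j) ∧ (∀ j t, c j (t + g) = c j t) ∧ ∀ j t, G.Adj (c j t) (c j (t + 1))

/-- the arcs are uniformly covered by weighted closed walks with `g` arcs: each arc has load `1` -/
def CycleCover {V : Type} (G : Digraph V) (g : ℕ) : Prop :=
  ∃ (ι : Type) (_ : Fintype ι) (c : ι → ℕ → V) (ω : ι → ℝ), ClosedWalks G g c ω ∧
    ∀ x y, G.Adj x y → load c ω g x y = 1

open Classical in
/-- the adjacency matrix; the entry `(x, y)` of its `l`-th power is the number of the walks with `l`
arcs from `x` to `y` -/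
noncomputable def adjM {V : Type} (G : Digraph V) : Matrix V V ℝ :=
  fun x y => if G.Adj x y then 1 else 0

/-- each arc `(x, y)` is in the same number `c > 0` of closed walks with `g` arcs (the number of walks
with `g - 1` arcs from `y` to `x`) -/
def CycleRegular {V : Type} [Fintype V] [DecidableEq V] (G : Digraph V) (g : ℕ) : Prop :=
  ∃ c : ℝ, 0 < c ∧ ∀ x y, G.Adj x y → (adjM G ^ (g - 1)) y x = c

/-- The arc set of `G` is a class of a coherent configuration: the ordered pairs of vertices are
coloured, the arcs are the pairs with the colour `c₀`, the colour of `(y, x)` is determined by the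
colour of `(x, y)`, and the number of the `z` such that `(x, z)` has colour `a` and `(z, y)` has colour
`b` depends only on `a`, `b` and the colour of `(x, y)`. -/
def CoherentClass {V : Type} (G : Digraph V) : Prop :=
  ∃ (C : Type) (col : V → V → C) (c₀ : C), (∀ x y, G.Adj x y ↔ col x y = c₀) ∧
    (∀ x y x' y', col x y = col x' y' → col y x = col y' x') ∧
    ∀ (a b : C) (x y x' y' : V), col x y = col x' y' →
      Nat.card {z // col x z = a ∧ col z y = b} = Nat.card {z // col x' z = a ∧ col z y' = b}

/-- there is a directed cycle with `g` arcs -/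
def HasCycle {V : Type} (G : Digraph V) (g : ℕ) : Prop :=
  ∃ c : ℕ → V, (∀ i, c (i + g) = c i) ∧ (∀ i, G.Adj (c i) (c (i + 1))) ∧ Set.InjOn c (Set.Iio g)

/-- the circulant `C(k, g)` -/
def circ (k g : ℕ) : Digraph (ZMod (k * (g - 1) + 1)) where
  Adj x y := ∃ a : ℕ, 1 ≤ a ∧ a ≤ k ∧ y = x + a

end Pool.Agent.Lib.MP_83608f_co.EM
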