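import Mathlib
import Pool.Agent.Lib.MP_83608f_co.EM.Def

section
/-!
# Elementary entropy inequalities (MP_83608f_co, module EM.Ent)

All functions are nonnegative functions on finite types; `negMulLog t = - t log t`. The total mass is
not normalised.
-/
set_option autoImplicit false

namespace Pool.Agent.Lib.MP_83608f_co.EM

open Finset Real

/-- `q log (b / q) ≤ b - q` -/
theorem neg_mul_log_add_le {q b : ℝ} (hq : 0 ≤ q) (hb : 0 < q → 0 < b) (hb0 : 0 ≤ b) :
    negMulLog q + q * log b ≤ b - q := by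
  rcases hq.eq_or_lt with h | h
  · subst h
    simp only [negMulLog_zero, zero_mul, add_zero, sub_zero]
    exact hb0
  · have hb' := hb h
    have h1 : log (b / q) ≤ b / q - 1 := log_le_sub_one_of_pos (div_pos hb' h)
    have h2 : log (b / q) = log b - log q := log_div hb'.ne' h.ne'
    have h3 : q * (log b - log q) ≤ q * (b / q - 1) := by
      rw [← h2]
      exact mul_le_mul_of_nonneg_left h1 hq
    have h4 : q * (b / q - 1) = b - q := by
      field_simp
    rw [h4] at h3
    unfold negMulLog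
    linarith

/-- subadditivity of the entropy, for a nonnegative matrix `q` with row sums `r` and column sums `t` -/
theorem sub_add {A C : Type} [Fintype A] [Fintype C] (q : A → C → ℝ) (hq : ∀ a c, 0 ≤ q a c) :
    (∑ a, ∑ c, negMulLog (q a c)) + negMulLog (∑ a, ∑ c, q a c) ≤
      (∑ a, negMulLog (∑ c, q a c)) + ∑ c, negMulLog (∑ a, q a c) := by
  set s := ∑ a, ∑ c, q a c with hs
  have hr0 : ∀ a, 0 ≤ ∑ c, q a c := fun a => sum_nonneg fun c _ => hq a c
  have ht0 : ∀ c, 0 ≤ ∑ a, q a c := fun c => sum_nonneg fun a _ => hq a c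
  have hs' : s = ∑ c, ∑ a, q a c := sum_comm
  have hs0 : 0 ≤ s := sum_nonneg fun a _ => hr0 a
  rcases hs0.eq_or_lt with h | h
  · have h1 : ∀ a, ∑ c, q a c = 0 := fun a => by
      have := (sum_eq_zero_iff_of_nonneg fun a _ => hr0 a).1 (hs.symm.trans h.symm)
      exact this a (mem_univ a)
    have h2 : ∀ a c, q a c = 0 := fun a c =>
      (sum_eq_zero_iff_of_nonneg fun c _ => hq a c).1 (h1 a) c (mem_univ c)
    rw [← h]
    simp [h2]
  · have key : ∀ a c, negMulLog (q a c) + q a c * (log (∑ c, q a c) + log (∑ a, q a c) - log s) ≤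
        (∑ c, q a c) * (∑ a, q a c) / s - q a c := by
      intro a c
      have h1 : 0 < q a c → 0 < (∑ c, q a c) * (∑ a, q a c) / s := by
        intro h2
        have h3 : 0 < ∑ c, q a c := lt_of_lt_of_le h2
          (single_le_sum (f := fun c => q a c) (fun c _ => hq a c) (mem_univ c))
        have h4 : 0 < ∑ a, q a c := lt_of_lt_of_le h2
          (single_le_sum (f := fun a => q a c) (fun a _ => hq a c) (mem_univ a))
        positivity
      have h5 := neg_mul_log_add_le (hq a c) h1 (by
        have := hr0 a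
        have := ht0 c
        positivity)
      refine le_trans (le_of_eq ?_) h5
      rcases (hq a c).eq_or_lt with h2 | h2
      · rw [← h2]
        simp
      · have h3 : 0 < ∑ c, q a c := lt_of_lt_of_le h2
          (single_le_sum (f := fun c => q a c) (fun c _ => hq a c) (mem_univ c))
        have h4 : 0 < ∑ a, q a c := lt_of_lt_of_le h2
          (single_le_sum (f := fun a => q a c) (fun a _ => hq a c) (mem_univ a))
        rw [log_div (mul_pos h3 h4).ne' h.ne', log_mul h3.ne' h4.ne']
    have hsum := sum_le_sum fun a (_ : a ∈ (univ : Finset A)) =>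
      sum_le_sum fun c (_ : c ∈ (univ : Finset C)) => key a c
    have e1 : ∑ a, ∑ c, ((∑ c, q a c) * (∑ a, q a c) / s - q a c) = 0 := by
      have e2 : ∀ a, ∑ c, ((∑ c, q a c) * (∑ a, q a c) / s - q a c) = 0 := by
        intro a
        rw [sum_sub_distrib, ← sum_div, ← mul_sum, ← hs']
        field_simp
        ring
      rw [sum_congr rfl fun a _ => e2 a, sum_const_zero]
    have e3 : ∑ a, ∑ c, (negMulLog (q a c) +
        q a c * (log (∑ c, q a c) + log (∑ a, q a c) - log s)) =
        (∑ a, ∑ c, negMulLog (q a c)) - (∑ a, negMulLog (∑ c, q a c)) -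
          (∑ c, negMulLog (∑ a, q a c)) + negMulLog s := by
      have e4 : ∑ a, ∑ c, q a c * log (∑ c, q a c) = - ∑ a, negMulLog (∑ c, q a c) := by
        rw [← sum_neg_distrib]
        refine sum_congr rfl fun a _ => ?_
        rw [← sum_mul]
        unfold negMulLog
        ring
      have e5 : ∑ a, ∑ c, q a c * log (∑ a, q a c) = - ∑ c, negMulLog (∑ a, q a c) := by
        rw [sum_comm, ← sum_neg_distrib]
        refine sum_congr rfl fun c _ => ?_
        rw [← sum_mul]
        unfold negMulLog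
        ring
      have e6 : ∑ a, ∑ c, q a c * log s = - negMulLog s := by
        simp_rw [← sum_mul]
        rw [← hs]
        unfold negMulLog
        ring
      have e7 : ∑ a, ∑ c, (negMulLog (q a c) +
          q a c * (log (∑ c, q a c) + log (∑ a, q a c) - log s)) =
          (∑ a, ∑ c, negMulLog (q a c)) + (∑ a, ∑ c, q a c * log (∑ c, q a c)) +
            (∑ a, ∑ c, q a c * log (∑ a, q a c)) - ∑ a, ∑ c, q a c * log s := by
        simp_rw [mul_sub, mul_add, sum_add_distrib, sum_sub_distrib, sum_add_distrib]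
        ring
      rw [e7, e4, e5, e6]
      ring
    rw [e1, e3] at hsum
    linarith

/-- entropy of a product matrix `r a * t c / s`, `s` the total mass of `r` and of `t` -/
theorem prod_ent {A C : Type} [Fintype A] [Fintype C] (r : A → ℝ) (t : C → ℝ)
    (hr : ∀ a, 0 ≤ r a) (ht : ∀ c, 0 ≤ t c) (s : ℝ) (hrs : ∑ a, r a = s) (hts : ∑ c, t c = s) :
    (∑ a, ∑ c, negMulLog (r a * t c / s)) + negMulLog s =
      (∑ a, negMulLog (r a)) + ∑ c, negMulLog (t c) := by
  have hs0 : 0 ≤ s := hrs ▸ sum_nonneg fun a _ => hr a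
  rcases hs0.eq_or_lt with h | h
  · have h1 : ∀ a, r a = 0 := fun a =>
      (sum_eq_zero_iff_of_nonneg fun a _ => hr a).1 (hrs.trans h.symm) a (mem_univ a)
    have h2 : ∀ c, t c = 0 := fun c =>
      (sum_eq_zero_iff_of_nonneg fun c _ => ht c).1 (hts.trans h.symm) c (mem_univ c)
    rw [← h]
    simp [h1, h2]
  · have key : ∀ a c, negMulLog (r a * t c / s) =
        t c / s * negMulLog (r a) + r a / s * negMulLog (t c) + r a * t c / s * log s := by
      intro a c
      rcases (hr a).eq_or_lt with h1 | h1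
      · rw [← h1]
        simp
      rcases (ht c).eq_or_lt with h2 | h2
      · rw [← h2]
        simp
      unfold negMulLog
      rw [log_div (mul_pos h1 h2).ne' h.ne', log_mul h1.ne' h2.ne']
      ring
    simp_rw [key, sum_add_distrib]
    have e1 : ∑ a, ∑ c, t c / s * negMulLog (r a) = ∑ a, negMulLog (r a) := by
      refine sum_congr rfl fun a _ => ?_
      rw [← sum_mul, ← sum_div, hts, div_self h.ne', one_mul]
    have e2 : ∑ a, ∑ c, r a / s * negMulLog (t c) = ∑ c, negMulLog (t c) := by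
      rw [sum_comm]
      refine sum_congr rfl fun c _ => ?_
      rw [← sum_mul, ← sum_div, hrs, div_self h.ne', one_mul]
    have e3 : ∑ a, ∑ c, r a * t c / s * log s = s * log s := by
      have : ∀ a, ∑ c, r a * t c / s * log s = r a * log s := by
        intro a
        rw [← sum_mul, ← sum_div, ← mul_sum, hts]
        field_simp
      rw [sum_congr rfl fun a _ => this a, ← sum_mul, hrs]
    rw [e1, e2, e3]
    unfold negMulLog
    ring

/-- the entropy of a function with support in a set with `N` elements -/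
theorem ent_le {A : Type} [Fintype A] (m : A → ℝ) (hm : ∀ a, 0 ≤ m a) (T : Finset A)
    (hT : ∀ a, m a ≠ 0 → a ∈ T) (W : ℝ) (hW : 0 < W) (hs : ∑ a, m a = W) :
    0 < (T.card : ℝ) ∧ ∑ a, negMulLog (m a) ≤ W * (log T.card - log W) := by
  have hmT : ∑ a ∈ T, m a = W := by
    rw [← hs]
    refine sum_subset (subset_univ T) fun a _ ha => ?_
    by_contra h
    exact ha (hT a h)
  have hcard : 0 < (T.card : ℝ) := by
    rcases T.eq_empty_or_nonempty with h | h
    · subst h
      rw [sum_empty] at hmT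
      exact absurd hmT hW.ne
    · exact_mod_cast h.card_pos
  refine ⟨hcard, ?_⟩
  have h1 : ∑ a, negMulLog (m a) = ∑ a ∈ T, negMulLog (m a) := by
    symm
    refine sum_subset (subset_univ T) fun a _ ha => ?_
    have : m a = 0 := by
      by_contra h
      exact ha (hT a h)
    rw [this, negMulLog_zero]
  rw [h1]
  have hc : 0 < W / T.card := div_pos hW hcard
  have h2 : ∑ a ∈ T, (negMulLog (m a) + m a * log (W / T.card)) ≤
      ∑ a ∈ T, (W / T.card - m a) :=
    sum_le_sum fun a _ => neg_mul_log_add_le (hm a) (fun _ => hc) hc.le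
  rw [sum_add_distrib, ← sum_mul, sum_sub_distrib, sum_const, hmT, nsmul_eq_mul,
    mul_div_cancel₀ _ hcard.ne', sub_self, log_div hW.ne' hcard.ne'] at h2
  linarith

end Pool.Agent.Lib.MP_83608f_co.EM
end

section
/-!
# The crossing lemma (MP_83608f_co, module EM.Cross)

Let `G` be a set of quadruples `(x, y, z, u)` whose fibres over the pairs `(x, z)` and over the pairs
`(y, u)` are products. If `w` is a nonnegative function with support in `G`, with
`∑_{z,u} w ≤ 1` for all `(x, y)` and `∑_{x,y} w ≤ 1` for all `(z, u)`, then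
`(∑ w)² ≤ |T₁| |T₂|`, where `T₁` contains the pairs `(x, z)` and `T₂` the pairs `(y, u)` of the
quadruples in `G`. Proof: maximal entropy.
-/
set_option autoImplicit false

namespace Pool.Agent.Lib.MP_83608f_co.EM

open Finset Real

section

variable {X Y Z U : Type} [Fintype X] [Fintype Y] [Fintype Z] [Fintype U]

/-- the entropy of a function of four variables -/
noncomputable def h4 (P : X → Y → Z → U → ℝ) : ℝ :=
  ∑ x, ∑ y, ∑ z, ∑ u, negMulLog (P x y z u)

/-- the nonnegative functions with support in `G` and given marginals -/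
structure Feas (G : X → Y → Z → U → Prop) (α : X → Y → ℝ) (β : Z → U → ℝ)
    (P : X → Y → Z → U → ℝ) : Prop where
  nn : ∀ x y z u, 0 ≤ P x y z u
  sup : ∀ x y z u, ¬ G x y z u → P x y z u = 0
  ma : ∀ x y, ∑ z, ∑ u, P x y z u = α x y
  mb : ∀ z u, ∑ x, ∑ y, P x y z u = β z u

variable {G : X → Y → Z → U → Prop} {α : X → Y → ℝ} {β : Z → U → ℝ} {P : X → Y → Z → U → ℝ}

theorem Feas.swap (h : Feas G α β P) : Feas (fun y x u z => G x y z u) (fun y x => α x y)
    (fun u z => β z u) (fun y x u z => P x y z u) where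
  nn := fun y x u z => h.nn x y z u
  sup := fun y x u z hg => h.sup x y z u hg
  ma := fun y x => by rw [← h.ma x y, sum_comm]
  mb := fun u z => by rw [← h.mb z u, sum_comm]

theorem h4_swap (P : X → Y → Z → U → ℝ) : h4 (fun y x u z => P x y z u) = h4 P := by
  unfold h4
  rw [sum_comm]
  refine sum_congr rfl fun x _ => sum_congr rfl fun y _ => ?_
  rw [sum_comm]

theorem exists_max (h : Feas G α β P) :
    ∃ Q, Feas G α β Q ∧ ∀ Q', Feas G α β Q' → h4 Q' ≤ h4 Q := by
  let K : Set (X → Y → Z → U → ℝ) := {Q | Feas G α β Q}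
  have hcl : IsClosed K := by
    have e : K = {Q | ∀ x y z u, 0 ≤ Q x y z u} ∩ ({Q | ∀ x y z u, ¬ G x y z u → Q x y z u = 0} ∩
        ({Q | ∀ x y, ∑ z, ∑ u, Q x y z u = α x y} ∩ {Q | ∀ z u, ∑ x, ∑ y, Q x y z u = β z u})) := by
      ext Q
      constructor
      · intro h
        exact ⟨h.nn, h.sup, h.ma, h.mb⟩
      · rintro ⟨h1, h2, h3, h4⟩
        exact ⟨h1, h2, h3, h4⟩
    rw [e]
    refine IsClosed.inter ?_ (IsClosed.inter ?_ (IsClosed.inter ?_ ?_))
    · simp only [Set.setOf_forall]
      refine isClosed_iInter fun x => isClosed_iInter fun y => isClosed_iInter fun z =>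
        isClosed_iInter fun u => ?_
      exact isClosed_le continuous_const (by fun_prop)
    · simp only [Set.setOf_forall]
      refine isClosed_iInter fun x => isClosed_iInter fun y => isClosed_iInter fun z =>
        isClosed_iInter fun u => isClosed_iInter fun _ => ?_
      exact isClosed_eq (by fun_prop) continuous_const
    · simp only [Set.setOf_forall]
      refine isClosed_iInter fun x => isClosed_iInter fun y => ?_
      exact isClosed_eq (by fun_prop) continuous_const
    · simp only [Set.setOf_forall]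
      refine isClosed_iInter fun z => isClosed_iInter fun u => ?_
      exact isClosed_eq (by fun_prop) continuous_const
  have hcomp : IsCompact K := by
    refine IsCompact.of_isClosed_subset
      (isCompact_univ_pi fun x : X => isCompact_univ_pi fun y : Y => isCompact_univ_pi fun z : Z =>
        isCompact_univ_pi fun u : U => isCompact_Icc (a := (0 : ℝ)) (b := α x y)) hcl ?_
    intro Q hQ x _ y _ z _ u _
    refine ⟨hQ.nn x y z u, ?_⟩
    rw [← hQ.ma x y]
    calc Q x y z u ≤ ∑ u, Q x y z u :=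
          single_le_sum (f := fun u => Q x y z u) (fun u _ => hQ.nn x y z u) (mem_univ u)
      _ ≤ ∑ z, ∑ u, Q x y z u :=
          single_le_sum (f := fun z => ∑ u, Q x y z u)
            (fun z _ => sum_nonneg fun u _ => hQ.nn x y z u) (mem_univ z)
  have hcont : Continuous (h4 : (X → Y → Z → U → ℝ) → ℝ) := by
    unfold h4
    refine continuous_finset_sum _ fun x _ => continuous_finset_sum _ fun y _ =>
      continuous_finset_sum _ fun z _ => continuous_finset_sum _ fun u _ => ?_
    exact continuous_negMulLog.comp (by fun_prop)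
  obtain ⟨Q, hQ, hmax⟩ := hcomp.exists_isMaxOn ⟨P, h⟩ hcont.continuousOn
  exact ⟨Q, hQ, fun Q' hQ' => hmax hQ'⟩

/-- recombination over the pairs `(x, z)` -/
theorem recomb (hG : ∀ x y z u y' u', G x y z u' → G x y' z u → G x y z u)
    (h : Feas G α β P) : ∃ Q, Feas G α β Q ∧
      h4 Q = ∑ x, ∑ z, ((∑ y, negMulLog (∑ u, P x y z u)) + (∑ u, negMulLog (∑ y, P x y z u)) -
        negMulLog (∑ y, ∑ u, P x y z u)) := by
  set r : X → Z → Y → ℝ := fun x z y => ∑ u, P x y z u with hr
  set t : X → Z → U → ℝ := fun x z u => ∑ y, P x y z u with ht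
  set s : X → Z → ℝ := fun x z => ∑ y, ∑ u, P x y z u with hs
  have hr0 : ∀ x z y, 0 ≤ r x z y := fun x z y => sum_nonneg fun u _ => h.nn x y z u
  have ht0 : ∀ x z u, 0 ≤ t x z u := fun x z u => sum_nonneg fun y _ => h.nn x y z u
  have hrs : ∀ x z, ∑ y, r x z y = s x z := fun x z => rfl
  have hts : ∀ x z, ∑ u, t x z u = s x z := fun x z => sum_comm
  have hs0 : ∀ x z, 0 ≤ s x z := fun x z => sum_nonneg fun y _ => hr0 x z y
  have hrz : ∀ x z y, s x z = 0 → r x z y = 0 := fun x z y h0 =>
    (sum_eq_zero_iff_of_nonneg fun y _ => hr0 x z y).1 ((hrs x z).trans h0) y (mem_univ y)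
  have htz : ∀ x z u, s x z = 0 → t x z u = 0 := fun x z u h0 =>
    (sum_eq_zero_iff_of_nonneg fun u _ => ht0 x z u).1 ((hts x z).trans h0) u (mem_univ u)
  have e1 : ∀ x z y, ∑ u, r x z y * t x z u / s x z = r x z y := by
    intro x z y
    rw [← sum_div, ← mul_sum, hts]
    rcases eq_or_ne (s x z) 0 with h0 | h0
    · rw [h0, hrz x z y h0]
      simp
    · field_simp
  have e2 : ∀ x z u, ∑ y, r x z y * t x z u / s x z = t x z u := by
    intro x z u
    rw [← sum_div, ← sum_mul, hrs]
    rcases eq_or_ne (s x z) 0 with h0 | h0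
    · rw [h0, htz x z u h0]
      simp
    · field_simp
  refine ⟨fun x y z u => r x z y * t x z u / s x z, ⟨?_, ?_, ?_, ?_⟩, ?_⟩
  · intro x y z u
    exact div_nonneg (mul_nonneg (hr0 x z y) (ht0 x z u)) (hs0 x z)
  · intro x y z u hg
    by_contra hne
    have h1 : r x z y ≠ 0 := fun h0 => hne (by rw [h0]; simp)
    have h2 : t x z u ≠ 0 := fun h0 => hne (by rw [h0]; simp)
    obtain ⟨u', -, hu'⟩ := exists_ne_zero_of_sum_ne_zero h1
    obtain ⟨y', -, hy'⟩ := exists_ne_zero_of_sum_ne_zero h2
    have g1 : G x y z u' := by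
      by_contra hg1
      exact hu' (h.sup _ _ _ _ hg1)
    have g2 : G x y' z u := by
      by_contra hg2
      exact hy' (h.sup _ _ _ _ hg2)
    exact hg (hG x y z u y' u' g1 g2)
  · intro x y
    rw [← h.ma x y]
    exact sum_congr rfl fun z _ => e1 x z y
  · intro z u
    rw [← h.mb z u]
    exact sum_congr rfl fun x _ => e2 x z u
  · unfold h4
    refine sum_congr rfl fun x _ => ?_
    rw [sum_comm]
    refine sum_congr rfl fun z _ => ?_
    have := prod_ent (r x z) (t x z) (hr0 x z) (ht0 x z) (s x z) (hrs x z) (hts x z)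
    linarith

/-- the crossing lemma -/
theorem cross (hG1 : ∀ x y z u y' u', G x y z u' → G x y' z u → G x y z u)
    (hG2 : ∀ x y z u x' z', G x y z' u → G x' y z u → G x y z u)
    (T₁ : Finset (X × Z)) (T₂ : Finset (Y × U))
    (hT₁ : ∀ x y z u, G x y z u → (x, z) ∈ T₁) (hT₂ : ∀ x y z u, G x y z u → (y, u) ∈ T₂)
    (w : X → Y → Z → U → ℝ) (hw : ∀ x y z u, 0 ≤ w x y z u)
    (hwG : ∀ x y z u, ¬ G x y z u → w x y z u = 0)
    (hrow : ∀ x y, ∑ z, ∑ u, w x y z u ≤ 1) (hcol : ∀ z u, ∑ x, ∑ y, w x y z u ≤ 1) :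
    (∑ x, ∑ y, ∑ z, ∑ u, w x y z u) ^ 2 ≤ (T₁.card : ℝ) * T₂.card := by
  set W := ∑ x, ∑ y, ∑ z, ∑ u, w x y z u with hW
  have hW0 : 0 ≤ W := sum_nonneg fun x _ => sum_nonneg fun y _ => sum_nonneg fun z _ =>
    sum_nonneg fun u _ => hw x y z u
  rcases hW0.eq_or_lt with h0 | h0
  · have h1 : (0 : ℝ) ≤ (T₁.card : ℝ) * T₂.card := by positivity
    rw [← h0]
    simpa using h1
  have hf : Feas G (fun x y => ∑ z, ∑ u, w x y z u) (fun z u => ∑ x, ∑ y, w x y z u) w :=
    ⟨hw, hwG, fun _ _ => rfl, fun _ _ => rfl⟩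
  obtain ⟨P, hP, hmax⟩ := exists_max hf
  obtain ⟨Q₁, hQ₁, e₁⟩ := recomb hG1 hP
  obtain ⟨Q₂', hQ₂', e₂⟩ := recomb (fun y x u z x' z' h1 h2 => hG2 x y z u x' z' h1 h2) hP.swap
  have hQ₂ := hQ₂'.swap
  have m1 := hmax _ hQ₁
  have m2 := hmax _ hQ₂
  rw [h4_swap, e₂] at m2
  rw [e₁] at m1
  -- names for the entropies
  set hxyz := ∑ x, ∑ z, ∑ y, negMulLog (∑ u, P x y z u) with exyz
  set hxzu := ∑ x, ∑ z, ∑ u, negMulLog (∑ y, P x y z u) with exzu
  set hxz := ∑ x, ∑ z, negMulLog (∑ y, ∑ u, P x y z u) with exz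
  set hxyu := ∑ y, ∑ u, ∑ x, negMulLog (∑ z, P x y z u) with exyu
  set hyzu := ∑ y, ∑ u, ∑ z, negMulLog (∑ x, P x y z u) with eyzu
  set hyu := ∑ y, ∑ u, negMulLog (∑ x, ∑ z, P x y z u) with eyu
  set hxy := ∑ x, ∑ y, negMulLog (∑ z, ∑ u, P x y z u) with exy
  set hzu := ∑ z, ∑ u, negMulLog (∑ x, ∑ y, P x y z u) with ezu
  have m1' : hxyz + hxzu - hxz ≤ h4 P := by
    simpa only [sum_add_distrib, sum_sub_distrib] using m1
  have m2' : hxyu + hyzu - hyu ≤ h4 P := by
    simpa only [sum_add_distrib, sum_sub_distrib] using m2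
  have s1 : h4 P + hxy ≤ hxyz + hxyu := by
    have h1 : ∀ x y, (∑ z, ∑ u, negMulLog (P x y z u)) + negMulLog (∑ z, ∑ u, P x y z u) ≤
        (∑ z, negMulLog (∑ u, P x y z u)) + ∑ u, negMulLog (∑ z, P x y z u) := fun x y =>
      sub_add (fun z u => P x y z u) fun z u => hP.nn x y z u
    have h2 := sum_le_sum fun x (_ : x ∈ (univ : Finset X)) =>
      sum_le_sum fun y (_ : y ∈ (univ : Finset Y)) => h1 x y
    simp only [sum_add_distrib] at h2
    have h3 : hxyz = ∑ x, ∑ y, ∑ z, negMulLog (∑ u, P x y z u) :=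
      sum_congr rfl fun x _ => sum_comm
    have h5 : hxyu = ∑ x, ∑ y, ∑ u, negMulLog (∑ z, P x y z u) := by
      rw [exyu, sum_comm (s := (univ : Finset X))]
      exact sum_congr rfl fun y _ => sum_comm
    rw [h3, h5]
    exact h2
  have s2 : h4 P + hzu ≤ hxzu + hyzu := by
    have h1 : ∀ z u, (∑ x, ∑ y, negMulLog (P x y z u)) + negMulLog (∑ x, ∑ y, P x y z u) ≤
        (∑ x, negMulLog (∑ y, P x y z u)) + ∑ y, negMulLog (∑ x, P x y z u) := fun z u =>
      sub_add (fun x y => P x y z u) fun x y => hP.nn x y z u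
    have h2 := sum_le_sum fun z (_ : z ∈ (univ : Finset Z)) =>
      sum_le_sum fun u (_ : u ∈ (univ : Finset U)) => h1 z u
    simp only [sum_add_distrib] at h2
    have h3 : hxzu = ∑ z, ∑ u, ∑ x, negMulLog (∑ y, P x y z u) := by
      rw [exzu, sum_comm]
      exact sum_congr rfl fun z _ => sum_comm
    have h5 : hyzu = ∑ z, ∑ u, ∑ y, negMulLog (∑ x, P x y z u) := by
      have a1 : hyzu = ∑ y, ∑ z, ∑ u, negMulLog (∑ x, P x y z u) :=
        sum_congr rfl fun y _ => sum_comm
      rw [a1, sum_comm]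
      exact sum_congr rfl fun z _ => sum_comm
    have h6 : h4 P = ∑ z, ∑ u, ∑ x, ∑ y, negMulLog (P x y z u) := by
      unfold h4
      have a1 : ∀ x, ∑ y, ∑ z, ∑ u, negMulLog (P x y z u) =
          ∑ z, ∑ u, ∑ y, negMulLog (P x y z u) := by
        intro x
        rw [sum_comm]
        exact sum_congr rfl fun z _ => sum_comm
      rw [sum_congr rfl fun x _ => a1 x, sum_comm]
      exact sum_congr rfl fun z _ => sum_comm
    rw [h3, h5, h6]
    exact h2
  have a1 : 0 ≤ hxy := by
    refine sum_nonneg fun x _ => sum_nonneg fun y _ => ?_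
    rw [hP.ma x y]
    exact negMulLog_nonneg (sum_nonneg fun z _ => sum_nonneg fun u _ => hw x y z u) (hrow x y)
  have a2 : 0 ≤ hzu := by
    refine sum_nonneg fun z _ => sum_nonneg fun u _ => ?_
    rw [hP.mb z u]
    exact negMulLog_nonneg (sum_nonneg fun x _ => sum_nonneg fun y _ => hw x y z u) (hcol z u)
  have hfin : 0 ≤ hxz + hyu := by linarith
  -- the total mass
  have hmass : ∑ x, ∑ y, ∑ z, ∑ u, P x y z u = W := by
    rw [hW]
    exact sum_congr rfl fun x _ => sum_congr rfl fun y _ => hP.ma x y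
  have hPG : ∀ x y z u, P x y z u ≠ 0 → G x y z u := fun x y z u h1 => by
    by_contra h2
    exact h1 (hP.sup x y z u h2)
  have b1 := ent_le (fun i : X × Z => ∑ y, ∑ u, P i.1 y i.2 u)
    (fun i => sum_nonneg fun y _ => sum_nonneg fun u _ => hP.nn _ _ _ _) T₁
    (by
      rintro ⟨x, z⟩ h1
      obtain ⟨y, -, h2⟩ := exists_ne_zero_of_sum_ne_zero h1
      obtain ⟨u, -, h3⟩ := exists_ne_zero_of_sum_ne_zero h2
      exact hT₁ x y z u (hPG x y z u h3)) W h0
    (by
      rw [Fintype.sum_prod_type, ← hmass]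
      exact sum_congr rfl fun x _ => sum_comm)
  have b2 := ent_le (fun i : Y × U => ∑ x, ∑ z, P x i.1 z i.2)
    (fun i => sum_nonneg fun x _ => sum_nonneg fun z _ => hP.nn _ _ _ _) T₂
    (by
      rintro ⟨y, u⟩ h1
      obtain ⟨x, -, h2⟩ := exists_ne_zero_of_sum_ne_zero h1
      obtain ⟨z, -, h3⟩ := exists_ne_zero_of_sum_ne_zero h2
      exact hT₂ x y z u (hPG x y z u h3)) W h0
    (by
      rw [Fintype.sum_prod_type, ← hmass]
      rw [sum_comm (s := (univ : Finset X))]
      refine sum_congr rfl fun y _ => ?_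
      rw [sum_comm]
      exact sum_congr rfl fun x _ => sum_comm)
  rw [Fintype.sum_prod_type] at b1 b2
  obtain ⟨c1, d1⟩ := b1
  obtain ⟨c2, d2⟩ := b2
  have hlog : 0 ≤ W * (log T₁.card + log T₂.card - 2 * log W) := by
    have : hxz + hyu ≤ W * (log T₁.card - log W) + W * (log T₂.card - log W) :=
      add_le_add d1 d2
    nlinarith
  have hlog2 : 0 ≤ log T₁.card + log T₂.card - 2 * log W := by
    by_contra hneg
    push Not at hneg
    have := mul_neg_of_pos_of_neg h0 hneg
    linarith
  have e3 : log (W ^ 2) ≤ log ((T₁.card : ℝ) * T₂.card) := by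
    rw [log_pow, log_mul c1.ne' c2.ne']
    push_cast
    linarith
  exact (log_le_log_iff (by positivity) (by positivity)).1 e3

end

end Pool.Agent.Lib.MP_83608f_co.EM
end

section
/-!
# Distance classes of a digraph (MP_83608f_co, module EM.Dig)
-/
set_option autoImplicit false

namespace Pool.Agent.Lib.MP_83608f_co.EM

open Finset Real

section

variable {V : Type} {G : Digraph V}

theorem Wk.zero (x : V) : Wk G 0 x x := rfl

theorem Wk.trans {a b : ℕ} {x y z : V} (h1 : Wk G a x y) (h2 : Wk G b y z) : Wk G (a + b) x z := by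
  induction a generalizing x with
  | zero =>
    have : x = y := h1
    subst this
    rwa [Nat.zero_add]
  | succ a ih =>
    obtain ⟨w, hw, h3⟩ := h1
    have := ih h3
    rw [Nat.add_right_comm]
    exact ⟨w, hw, this⟩

theorem Wk.one {x y : V} : Wk G 1 x y ↔ G.Adj x y := by
  constructor
  · rintro ⟨z, hz, rfl⟩
    exact hz
  · intro h
    exact ⟨y, h, rfl⟩

theorem Wk.cons {l : ℕ} {x y z : V} (h1 : G.Adj x y) (h2 : Wk G l y z) : Wk G (l + 1) x z :=
  ⟨y, h1, h2⟩

theorem Wk.snoc {l : ℕ} {x y z : V} (h1 : Wk G l x y) (h2 : G.Adj y z) : Wk G (l + 1) x z :=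
  h1.trans (Wk.one.2 h2)

theorem Wk.split {a b : ℕ} {x z : V} (h : Wk G (a + b) x z) : ∃ y, Wk G a x y ∧ Wk G b y z := by
  induction a generalizing x with
  | zero =>
    rw [Nat.zero_add] at h
    exact ⟨x, rfl, h⟩
  | succ a ih =>
    rw [Nat.add_right_comm] at h
    obtain ⟨w, hw, h3⟩ := h
    obtain ⟨y, h4, h5⟩ := ih h3
    exact ⟨y, ⟨w, hw, h4⟩, h5⟩

/-- a sequence of vertices gives walks -/
theorem Wk.of_seq (c : ℕ → V) (hc : ∀ i, G.Adj (c i) (c (i + 1))) (s l : ℕ) :
    Wk G l (c s) (c (s + l)) := by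
  induction l with
  | zero => rfl
  | succ l ih => exact ih.snoc (hc (s + l))

/-- a walk gives a sequence of vertices -/
theorem Wk.to_seq {l : ℕ} {x y : V} (h : Wk G l x y) : ∃ c : ℕ → V, c 0 = x ∧ c l = y ∧
    ∀ i < l, G.Adj (c i) (c (i + 1)) := by
  induction l generalizing x with
  | zero => exact ⟨fun _ => x, rfl, h, fun i hi => absurd hi (Nat.not_lt_zero i)⟩
  | succ l ih =>
    obtain ⟨z, hz, h2⟩ := h
    obtain ⟨c, h0, hl, hc⟩ := ih h2
    refine ⟨fun i => if i = 0 then x else c (i - 1), by simp, by simp [hl], ?_⟩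
    intro i hi
    rcases Nat.eq_zero_or_pos i with h3 | h3
    · subst h3
      simpa [h0] using hz
    · have e1 : ¬ i = 0 := by omega
      have e2 : ¬ i + 1 = 0 := by omega
      simp only [e1, e2, if_false]
      have := hc (i - 1) (by omega)
      have e3 : i - 1 + 1 = i + 1 - 1 := by omega
      rwa [e3] at this

/-- no short directed cycles: no short closed walks -/
theorem GirthGe.no_closed {g : ℕ} (h : GirthGe G g) :
    ∀ l, 1 ≤ l → l < g → ∀ x, ¬ Wk G l x x := by
  intro l
  induction l using Nat.strong_induction_on with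
  | _ l ih =>
    intro hl hlg x hx
    obtain ⟨c, h0, h1, hc⟩ := hx.to_seq
    refine h l hl hlg ⟨fun i => c (i % l), fun i => by simp, ?_, ?_⟩
    · intro i
      have h2 : i % l < l := Nat.mod_lt i (by omega)
      have h3 := hc (i % l) h2
      have h4 : (i + 1) % l = (i % l + 1) % l := by simp [Nat.add_mod]
      show G.Adj (c (i % l)) (c ((i + 1) % l))
      rw [h4]
      rcases Nat.lt_or_ge (i % l + 1) l with h5 | h5
      · rw [Nat.mod_eq_of_lt h5]
        exact h3
      · have h6 : i % l + 1 = l := by omega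
        rw [h6, Nat.mod_self, h0, ← h1]
        rw [h6] at h3
        exact h3
    · -- injectivity
      have key : ∀ s t, s < t → t < l → c s ≠ c t := by
        intro s t hst htl he
        have h2 : Wk G (t - s) (c s) (c t) := by
          have h3 : ∀ d, s + d ≤ l → Wk G d (c s) (c (s + d)) := by
            intro d
            induction d with
            | zero => intro _; rfl
            | succ d ihd =>
              intro hd
              exact (ihd (by omega)).snoc (hc (s + d) (by omega))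
          have h4 := h3 (t - s) (by omega)
          rwa [Nat.add_sub_cancel' hst.le] at h4
        rw [← he] at h2
        exact ih (t - s) (by omega) (by omega) (by omega) (c s) h2
      intro s hs t ht he
      simp only [Set.mem_Iio] at hs ht
      simp only [Nat.mod_eq_of_lt hs, Nat.mod_eq_of_lt ht] at he
      rcases lt_trichotomy s t with h2 | h2 | h2
      · exact absurd he (key s t h2 ht)
      · exact h2
      · exact absurd he.symm (key t s h2 hs)

end

section

variable {V : Type} [Fintype V] {G : Digraph V}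

open Classical in
/-- the ordered pairs at distance `i` -/
noncomputable def lev (G : Digraph V) (i : ℕ) : Finset (V × V) :=
  univ.filter fun a => DistEq G i a.1 a.2

theorem mem_lev {i : ℕ} {a : V × V} : a ∈ lev G i ↔ DistEq G i a.1 a.2 := by
  classical
  unfold lev
  rw [mem_filter]
  exact and_iff_right (mem_univ a)

theorem card_lev (i : ℕ) : (lev G i).card = Nat.card {a : V × V // DistEq G i a.1 a.2} := by
  classical
  unfold lev
  rw [Nat.card_eq_fintype_card, Fintype.card_subtype]

omit [Fintype V] in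
/-- the relation `R_i` is an exchange family -/
theorem opp_exch (i : ℕ) (hi : 1 ≤ i) : Exch G i (Opp G i) where
  arc₁ := fun a b h => h.1
  arc₂ := fun a b h => h.2.1
  dist₁ := fun a b h => by
    obtain ⟨h1, h2, h3, h4⟩ := h
    refine ⟨?_, ?_⟩
    · have := Wk.cons h1 h3
      rwa [Nat.sub_add_cancel hi] at this
    · intro j hj hw
      exact h4 (j + 1) (by omega) (by omega) (hw.snoc h2)
  dist₂ := fun a b h => by
    obtain ⟨h1, h2, h3, h4⟩ := h
    refine ⟨?_, ?_⟩
    · have := h3.snoc h2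
      rwa [Nat.sub_add_cancel hi] at this
    · intro j hj hw
      exact h4 (j + 1) (by omega) (by omega) (Wk.cons h1 hw)
  ex₁ := fun x y z u y' u' h h' => ⟨h.1, h'.2.1, h.2.2.1, h'.2.2.2⟩
  ex₂ := fun x y z u x' z' h h' => ⟨h.1, h'.2.1, h'.2.2.1, h.2.2.2⟩

/-- the bound for one distance class, for exchange families -/
theorem exch_bound {i : ℕ} {F : V × V → V × V → Prop} (hF : Exch G i F)
    (w : V → V → V → V → ℝ) (hw : ∀ x y z u, 0 ≤ w x y z u)
    (hwG : ∀ x y z u, w x y z u ≠ 0 → F (x, y) (z, u))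
    (hrow : ∀ x y, ∑ z, ∑ u, w x y z u ≤ 1) (hcol : ∀ z u, ∑ x, ∑ y, w x y z u ≤ 1) :
    ∑ x, ∑ y, ∑ z, ∑ u, w x y z u ≤ (lev G i).card := by
  classical
  have h1 := cross (G := fun x y z u => F (x, y) (z, u))
    (fun x y z u y' u' h h' => hF.ex₁ x y z u y' u' h h')
    (fun x y z u x' z' h h' => hF.ex₂ x y z u x' z' h h')
    (lev G i) (lev G i)
    (fun x y z u h => mem_lev.2 (hF.dist₁ _ _ h)) (fun x y z u h => mem_lev.2 (hF.dist₂ _ _ h))
    w hw (fun x y z u h => by
      by_contra h2
      exact h (hwG x y z u h2)) hrow hcol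
  have h2 : 0 ≤ ∑ x, ∑ y, ∑ z, ∑ u, w x y z u := sum_nonneg fun x _ => sum_nonneg fun y _ =>
    sum_nonneg fun z _ => sum_nonneg fun u _ => hw x y z u
  have h3 : (0 : ℝ) ≤ (lev G i).card := by positivity
  have h4 : (∑ x, ∑ y, ∑ z, ∑ u, w x y z u) ^ 2 ≤ ((lev G i).card : ℝ) ^ 2 := by
    rw [pow_two ((lev G i).card : ℝ)]
    exact h1
  exact (pow_le_pow_iff_left₀ h2 h3 two_ne_zero).1 h4

/-- the bound for one distance class, fractional form -/
theorem level_bound (i : ℕ) (hi : 1 ≤ i) (w : V → V → V → V → ℝ) (hw : ∀ x y z u, 0 ≤ w x y z u)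
    (hwG : ∀ x y z u, w x y z u ≠ 0 → Opp G i (x, y) (z, u))
    (hrow : ∀ x y, ∑ z, ∑ u, w x y z u ≤ 1) (hcol : ∀ z u, ∑ x, ∑ y, w x y z u ≤ 1) :
    ∑ x, ∑ y, ∑ z, ∑ u, w x y z u ≤ (lev G i).card :=
  exch_bound (opp_exch i hi) w hw hwG hrow hcol

/-- the bound for one distance class, for matchings -/
theorem matching_bound (i : ℕ) (hi : 1 ≤ i) (M : Finset ((V × V) × (V × V)))
    (h1 : ∀ p ∈ M, ∀ q ∈ M, p.1 = q.1 → p = q) (h2 : ∀ p ∈ M, ∀ q ∈ M, p.2 = q.2 → p = q)
    (hM : ∀ p ∈ M, Opp G i p.1 p.2) : M.card ≤ (lev G i).card := by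
  classical
  set w : V → V → V → V → ℝ := fun x y z u => if ((x, y), (z, u)) ∈ M then 1 else 0 with hw
  have e1 : ∑ x, ∑ y, ∑ z, ∑ u, w x y z u = M.card := by
    have : ∑ x, ∑ y, ∑ z, ∑ u, w x y z u =
        ∑ p : (V × V) × (V × V), if p ∈ M then (1 : ℝ) else 0 := by
      simp only [Fintype.sum_prod_type]
      rfl
    rw [this, sum_ite_mem, univ_inter, sum_const, nsmul_eq_mul, mul_one]
  have key : ∀ (f : V × V → (V × V) × (V × V)), (∀ b, ∀ b', f b ∈ M → f b' ∈ M → b = b') →
      ∑ b : V × V, (if f b ∈ M then (1 : ℝ) else 0) ≤ 1 := by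
    intro f hf
    rw [sum_ite, sum_const_zero, add_zero, sum_const, nsmul_eq_mul, mul_one]
    have : (univ.filter fun b => f b ∈ M).card ≤ 1 := by
      rw [card_le_one]
      intro b hb b' hb'
      rw [mem_filter] at hb hb'
      exact hf b b' hb.2 hb'.2
    exact_mod_cast this
  have h3 := level_bound (G := G) i hi w (fun x y z u => by
      rw [hw]
      simp only
      split_ifs <;> norm_num)
    (fun x y z u h => by
      have : ((x, y), (z, u)) ∈ M := by
        by_contra h4
        exact h (if_neg h4)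
      exact hM _ this)
    (fun x y => by
      have := key (fun b => ((x, y), b)) (fun b b' hb hb' => by
        have := h1 _ hb _ hb' rfl
        exact congrArg Prod.snd this)
      rw [Fintype.sum_prod_type] at this
      exact this)
    (fun z u => by
      have := key (fun a => (a, (z, u))) (fun b b' hb hb' => by
        have := h2 _ hb _ hb' rfl
        exact congrArg Prod.fst this)
      rw [Fintype.sum_prod_type] at this
      exact this)
  rw [e1] at h3
  exact_mod_cast h3

/-- the distance classes are disjoint -/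
theorem sum_lev (g : ℕ) : (∑ i ∈ Ico 1 g, (lev G i).card : ℕ) ≤
    Fintype.card V * (Fintype.card V - 1) := by
  classical
  rw [← card_biUnion]
  · have h1 : (Ico 1 g).biUnion (lev G) ⊆ (univ : Finset V).offDiag := by
      intro a ha
      rw [mem_biUnion] at ha
      obtain ⟨i, hi, ha⟩ := ha
      rw [mem_Ico] at hi
      rw [mem_offDiag]
      refine ⟨mem_univ _, mem_univ _, ?_⟩
      exact (mem_lev.1 ha).2 0 (by omega)
    have h2 := card_le_card h1
    rw [offDiag_card, card_univ] at h2
    rw [Nat.mul_sub, mul_one]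
    exact h2
  · intro i _ j _ hij
    rw [Function.onFun, disjoint_left]
    intro a ha hb
    rw [mem_lev] at ha hb
    rcases lt_or_gt_of_ne hij with h | h
    · exact hb.2 i h ha.1
    · exact ha.2 j h hb.1

/-- the first distance class of a digraph without loops -/
theorem lev_one (h : ∀ x, ¬ G.Adj x x) (a : V × V) : a ∈ lev G 1 ↔ G.Adj a.1 a.2 := by
  rw [mem_lev]
  unfold DistEq
  rw [Wk.one]
  constructor
  · exact fun h => h.1
  · intro h1
    refine ⟨h1, fun j hj h2 => ?_⟩
    have : j = 0 := by omega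
    subst this
    have h3 : a.1 = a.2 := h2
    rw [h3] at h1
    exact h _ h1

end

end Pool.Agent.Lib.MP_83608f_co.EM
end
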